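import Mathlib

/-!
# A multiple root of a Hankel determinant polynomial of weighted binary digit sums

For `n = 55` the polynomial `H(n, t)` is divisible by `(t + 1) ^ 2`: there is a vector
`v + (t + 1) u` of polynomials, with last entry `1`, which is mapped by the matrix `H(55, t)` to
a vector all of whose entries are divisible by `(t + 1) ^ 2`. (In fact
`H(55, t) = t ^ 230 (t - 2) ^ 53 (t + 2) ^ 13 (t ^ 6 + 2 t ^ 5 + 3 t ^ 4 + 3 t ^ 3 + 2 t ^ 2 + 3 t + 2)`
and the last factor is `(t + 1) ^ 2 (t ^ 4 + 2 t ^ 2 - t + 2)`.)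
-/

namespace Pool.Agent.Results.MP_adc81a_nt.MultipleRoot

open Polynomial

/-- The binary digit sum `S(m, t) = ∑ ε_j t ^ j` for `m = ∑ ε_j 2 ^ j`. -/
noncomputable def S (m : ℕ) : ℤ[X] := Nat.ofDigits (X : ℤ[X]) (Nat.digits 2 m)

/-- The `n × n` Hankel matrix with entries `S(i + j, t)`. -/
noncomputable def hankel (n : ℕ) : Matrix (Fin n) (Fin n) ℤ[X] := fun i j => S (i + j)

/-- The determinant `H(n, t)`. -/
noncomputable def H (n : ℕ) : ℤ[X] := (hankel n).det

lemma S_zero : S 0 = 0 := by
  unfold S
  rw [Nat.digits_zero]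
  rfl

lemma S_rec (m : ℕ) : S m = C ((m % 2 : ℕ) : ℤ) + X * S (m / 2) := by
  rcases Nat.eq_zero_or_pos m with h | h
  · subst h; simp [S_zero]
  · unfold S
    rw [Nat.digits_def' (by norm_num) h]
    change ((m % 2 : ℕ) : ℤ[X]) + X * Nat.ofDigits X (Nat.digits 2 (m / 2)) = _
    rw [← C_eq_natCast]

/-- Value and derivative of `S m` at `-1`, for `m < 2 ^ k`. -/
def D : ℕ → ℕ → ℤ × ℤ
  | 0, _ => (0, 0)
  | k + 1, m => (((m % 2 : ℕ) : ℤ) - (D k (m / 2)).1, (D k (m / 2)).1 - (D k (m / 2)).2)

lemma D_spec (k : ℕ) : ∀ m < 2 ^ k,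
    (S m).eval (-1) = (D k m).1 ∧ (derivative (S m)).eval (-1) = (D k m).2 := by
  induction k with
  | zero =>
    intro m hm
    have : m = 0 := by omega
    subst this
    simp [S_zero, D]
  | succ k ih =>
    intro m hm
    obtain ⟨h1, h2⟩ := ih (m / 2) (by omega)
    rw [S_rec m]
    constructor
    · simp only [eval_add, eval_C, eval_mul, eval_X, h1, D]
      ring
    · simp only [derivative_add, derivative_C, derivative_mul, derivative_X, eval_add,
        eval_zero, eval_mul, eval_one, eval_X, h1, h2, D]
      ring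

/-- Value of `S m` at `1`. -/
def pop : ℕ → ℕ → ℕ
  | 0, _ => 0
  | k + 1, m => m % 2 + pop k (m / 2)

lemma pop_spec (k : ℕ) : ∀ m < 2 ^ k, (S m).eval 1 = (pop k m : ℤ) := by
  induction k with
  | zero =>
    intro m hm
    have : m = 0 := by omega
    subst this
    simp [S_zero, pop]
  | succ k ih =>
    intro m hm
    have h1 := ih (m / 2) (by omega)
    rw [S_rec m]
    simp only [eval_add, eval_C, eval_mul, eval_X, h1, pop]
    push_cast
    ring

/-- The constant part of the kernel vector. -/
def vL : List ℤ := [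
    -3, 2, 1, 0, -1, 1, 1, 0, 0, 0, 0, 0, 0, 0, 0, 0, -3, 2, 1, 0, -1, 1, 1, 0, 0, 0, 0, 0, 0,
    0, 0, 0, 8, -5, -2, 0, 2, -2, -2, 0, 2, -1, 0, 0, 0, 0, 0, 0, -3, 2, 1, 0, -1, 1, 1]

/-- The linear part of the kernel vector. -/
def uL : List ℤ := [
    -19, 14, 3, 0, -4, 5, 3, 0, -2, 1, 0, 0, 0, 0, 0, 0, -8, 7, 0, 0, -1, 2, 0, 0, 0, 0, 0, 0,
    0, 0, 0, 0, 32, -25, -3, 0, 5, -7, -3, 0, 7, -5, 0, 0, 0, 0, 0, 0, -8, 7, 0, 0, -1, 2, 0]

/-- The rows of the inverse of `H(55, 1)` modulo `5`; digits in base `8`. -/
def rL : List ℕ := [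
    845691647038587625657064898791573457311723759649,
    7346434485853760902980982630977685502477664911972,
    23752302140879649400737241452642099920587517440264,
    1736269298607039198195638455840375476231723859980,
    26712813854072654362284553097350497099640159963330,
    12080402879880035838088174760456192597580175127266,
    13525178955831703944870252717116994448686557835264,
    267608942382369537630710658545729905996333075,
    18467380903375820768990739907922080513604811310162,
    12747351263709219455158759282976399887179692185153,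
    8769009823985485009081269949232113083088116940800,
    1096126227998185626135158743654014135386014617600,
    137015778499773203266894842956751766923251827200,
    17126972312471650408361855369593970865406478400,
    2140871539058956301045231921199246358175809800,
    267608942382369537630653990149905794771976225,
    6065189423523881910341805643078587202564851778186,
    13998895566367468914379630988313353840618963249172,
    25760416429080835676095383024643220484967210434712,
    2375363940190267597468443093595989683186046152730,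
    13544803619414296952801749792039206368157317089025,
    6067765160622636077600276100177414283218890802193,
    6765533176181095117661167266533822180707816521992,
    43864523860902223805825632989452697600,
    5483065482612777975728204123681587200,
    685383185326597246966025515460198400,
    85672898165824655870753189432524800,
    10709112270728081983844148679065600,
    1338639033841010247980518584883200,
    167329879230126280997564823110400,
    20916234903765785124695602888800,
    2614529362970723140586950361100,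
    24863396306753599535582759405733597160772905862352,
    1143658175738105137607832142344952703778946627212,
    24941221464767914085597782783174962360034940723296,
    1096393978541899429720009206425747589857135296545,
    6989789487540362937507780693057779152568120316035,
    17644349603301311681076612951140376326499192807499,
    19828105473412437151454401610304423051887080939616,
    423714184027414710340686241623986859317133345,
    7697592821673093232966929336539529330623098009764,
    24972753585993936695398488949900325085069567730306,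
    13884265554643645222794166863674540047625897410560,
    1735533194330455652849270857959317505953237176320,
    216941649291306956606158857244914688244154647040,
    27117706161413369575769857155614336030519330880,
    3389713270176671196971232144451792003814916360,
    423714158772083899621404018056474000476864545,
    6065097432949937971521346808240713689157918540426,
    13998898005511475003666537093782539880747177388052,
    25760416733973836437256246287826868739983237202072,
    2375363978301892692613551001493945715063049498650,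
    13544803624178250089694888280526450872141942507265,
    6067765161218130219711918411238319846216968979473,
    6765533176308701005256519190332587658493790077192]

/-- The constant part of the kernel vector. -/
def v (j : Fin 55) : ℤ := vL.getD j 0

/-- The linear part of the kernel vector. -/
def u (j : Fin 55) : ℤ := uL.getD j 0

/-- The inverse of `H(55, 1)` modulo `5`. -/
def N (k j : Fin 55) : ℕ := (rL.getD k 0 >>> (3 * (j : ℕ))) % 8

lemma row_zero : ∀ i : Fin 55, ∑ j : Fin 55, (D 7 (i + j)).1 * v j = 0 := by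
  decide +kernel

lemma row_one : ∀ i : Fin 55,
    ∑ j : Fin 55, ((D 7 (i + j)).2 * v j + (D 7 (i + j)).1 * u j) = 0 := by
  decide +kernel

lemma inv_mod : ∀ i j : Fin 55,
    (∑ k : Fin 55, pop 7 (i + k) * N k j) % 5 = if i = j then 1 else 0 := by
  decide +kernel

/-- The kernel vector modulo `(X + 1) ^ 2`. -/
noncomputable def w (j : Fin 55) : ℤ[X] := C (v j) + (X + 1) * C (u j)

lemma dvd_of_eval {P : ℤ[X]} (h0 : P.eval (-1) = 0) (h1 : (derivative P).eval (-1) = 0) :
    (X + 1) ^ 2 ∣ P := by
  have hX : (X + 1 : ℤ[X]) = X - C (-1) := by simp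
  obtain ⟨Q, hQ⟩ : (X - C (-1 : ℤ)) ∣ P := dvd_iff_isRoot.mpr h0
  subst hQ
  have h2 : Q.eval (-1) = 0 := by
    simpa [derivative_mul] using h1
  obtain ⟨R, hR⟩ : (X - C (-1 : ℤ)) ∣ Q := dvd_iff_isRoot.mpr h2
  subst hR
  rw [hX]
  exact ⟨R, by ring⟩

lemma mulVec_dvd (i : Fin 55) : (X + 1) ^ 2 ∣ ∑ j : Fin 55, S (i + j) * w j := by
  have hlt : ∀ j : Fin 55, ((i : ℕ) + (j : ℕ)) < 2 ^ 7 := by
    intro j; have := i.2; have := j.2; omega
  apply dvd_of_eval
  · rw [eval_finsetSum, ← row_zero i]
    refine Finset.sum_congr rfl fun j _ => ?_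
    rw [eval_mul, (D_spec 7 _ (hlt j)).1]
    simp [w]
  · rw [derivative_sum, eval_finsetSum, ← row_one i]
    refine Finset.sum_congr rfl fun j _ => ?_
    rw [derivative_mul, eval_add, eval_mul, eval_mul, (D_spec 7 _ (hlt j)).1,
      (D_spec 7 _ (hlt j)).2]
    simp [w]

lemma v_last : v (Fin.last 54) = 1 := by decide

lemma u_last : u (Fin.last 54) = 0 := by decide

lemma w_last : w (Fin.last 54) = 1 := by
  unfold w
  rw [v_last, u_last, C_0, mul_zero, add_zero, C_1]

lemma dvd_det {n : ℕ} (A : Matrix (Fin n) (Fin n) ℤ[X]) (w : Fin n → ℤ[X]) (P : ℤ[X])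
    (i₀ : Fin n) (hw : w i₀ = 1) (h : ∀ i, P ∣ ∑ j, A i j * w j) : P ∣ A.det := by
  have h2 : P ∣ (A.adjugate.mulVec (A.mulVec w)) i₀ := by
    unfold Matrix.mulVec dotProduct
    exact Finset.dvd_sum fun i _ => Dvd.dvd.mul_left (h i) _
  rw [Matrix.mulVec_mulVec, Matrix.adjugate_mul, Matrix.smul_mulVec, Matrix.one_mulVec,
    Pi.smul_apply, hw, smul_eq_mul, mul_one] at h2
  exact h2

/-- `(X + 1) ^ 2` divides `H(55, X)`. -/
lemma sq_dvd : (X + 1) ^ 2 ∣ H 55 :=
  dvd_det (hankel 55) w _ (Fin.last 54) w_last mulVec_dvd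

lemma det_ne_zero {n : ℕ} (A : Matrix (Fin n) (Fin n) ℤ[X]) (φ : ℤ[X] →+* ZMod 5)
    (B : Matrix (Fin n) (Fin n) (ZMod 5)) (h : A.map φ * B = 1) : A.det ≠ 0 := by
  have : Fact (Nat.Prime 5) := ⟨by norm_num⟩
  intro h0
  have h1 : (A.map φ).det = 0 := by
    have := congrArg φ h0
    rwa [RingHom.map_det, map_zero] at this
  have h6 := congrArg Matrix.det h
  rw [Matrix.det_mul, h1, zero_mul, Matrix.det_one] at h6
  exact zero_ne_one h6

/-- Evaluation at `1` modulo `5`. -/
noncomputable def φ : ℤ[X] →+* ZMod 5 := (Int.castRingHom (ZMod 5)).comp (evalRingHom 1)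

lemma φ_S {m : ℕ} (hm : m < 2 ^ 7) : φ (S m) = ((pop 7 m : ℕ) : ZMod 5) := by
  simp only [φ, RingHom.coe_comp, Function.comp_apply, coe_evalRingHom]
  rw [pop_spec 7 _ hm]
  simp

lemma inv_entry (i j : Fin 55) : ∑ k : Fin 55, φ (S (i + k)) * ((N k j : ℕ) : ZMod 5) =
    if i = j then 1 else 0 := by
  have hlt : ∀ k : Fin 55, ((i : ℕ) + (k : ℕ)) < 2 ^ 7 := by
    intro k; have := i.2; have := k.2; omega
  have h4 : ∑ k : Fin 55, φ (S (i + k)) * ((N k j : ℕ) : ZMod 5) =
      ((∑ k : Fin 55, pop 7 (i + k) * N k j : ℕ) : ZMod 5) := by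
    rw [Nat.cast_sum]
    refine Finset.sum_congr rfl fun k _ => ?_
    rw [Nat.cast_mul, φ_S (hlt k)]
  have h5 : ((∑ k : Fin 55, pop 7 (i + k) * N k j : ℕ) : ZMod 5) =
      (((∑ k : Fin 55, pop 7 (i + k) * N k j) % 5 : ℕ) : ZMod 5) := by
    rw [ZMod.natCast_mod]
  rw [h4, h5, inv_mod i j]
  split_ifs <;> simp

/-- `H(55, t)` is not the zero polynomial. -/
lemma H_ne_zero : H 55 ≠ 0 := by
  refine det_ne_zero (hankel 55) φ (Matrix.of fun k j => ((N k j : ℕ) : ZMod 5)) ?_
  ext i j
  rw [Matrix.mul_apply, Matrix.one_apply, ← inv_entry i j]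
  rfl

/-- **A multiple root.** There are an integer `n ≥ 2` and a complex number `t₀` with `t₀ ≠ 0` and
`t₀ ≠ 2 ζ` for every root of unity `ζ` such that `H(n, t)` is not the zero polynomial and
`(t - t₀) ^ 2` divides `H(n, t)`; one may take `n = 55` and `t₀ = -1`. -/
theorem result : ∃ (n : ℕ) (t₀ : ℂ), 2 ≤ n ∧ t₀ ≠ 0 ∧
    (∀ ζ : ℂ, (∃ m : ℕ, 1 ≤ m ∧ ζ ^ m = 1) → t₀ ≠ 2 * ζ) ∧
    (H n).map (Int.castRingHom ℂ) ≠ 0 ∧ (X - C t₀) ^ 2 ∣ (H n).map (Int.castRingHom ℂ) := by
  refine ⟨55, -1, by norm_num, by norm_num, ?_, ?_, ?_⟩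
  · rintro ζ ⟨m, hm, hζ⟩ h
    have h1 : ‖ζ‖ = 1 := Complex.norm_eq_one_of_pow_eq_one hζ (by omega)
    have h2 := congrArg norm h
    rw [norm_mul, h1] at h2
    norm_num at h2
  · intro h
    exact H_ne_zero ((Polynomial.map_eq_zero_iff (RingHom.injective_int _)).mp h)
  · have h1 := Polynomial.map_dvd (Int.castRingHom ℂ) sq_dvd
    simpa using h1

end Pool.Agent.Results.MP_adc81a_nt.MultipleRoot
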